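import Pool.Agent.U645.VS.Stm
import Pool.Agent.U908.VB.K

/-!
Project VS (`MP_e0c419_co`): assembly of the packages.
-/

set_option autoImplicit false
set_option linter.unusedVariables false

open Finset

namespace Pool.Agent.U645.VS

theorem IsTri.add {α : Type} {w w' : α → α → α → ℕ} (h : IsTri w) (h' : IsTri w') :
    IsTri fun x y z => w x y z + w' x y z := by
  refine ⟨fun x y z => ?_, fun x y z => ?_, fun x y => ?_⟩
  · show w x y z + w' x y z = w y x z + w' y x z
    rw [h.1 x y z, h'.1 x y z]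
  · show w x y z + w' x y z = w x z y + w' x z y
    rw [h.2.1 x y z, h'.2.1 x y z]
  · show w x x y + w' x x y = 0
    rw [h.2.2, h'.2.2]

theorem IsTri.comp {α β : Type} {w : α → α → α → ℕ} (h : IsTri w) (f : β → α) :
    IsTri fun x y z => w (f x) (f y) (f z) :=
  ⟨fun x y z => h.1 _ _ _, fun x y z => h.2.1 _ _ _, fun x y => h.2.2 _ _⟩

/-- Even weights with pair sums at most `2 m` and the total `12 s`. -/
def Ev (v m s : ℕ) : Prop :=
  ∃ w : Fin v → Fin v → Fin v → ℕ, IsTri w ∧
    (∀ x y, x ≠ y → ∑ z, w x y z ≤ 2 * m ∧ (∑ z, w x y z) % 2 = 0) ∧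
      ∑ x, ∑ y, ∑ z, w x y z = 12 * s

theorem Ev.add {v m s m' s' : ℕ} (h : Ev v m s) (h' : Ev v m' s') : Ev v (m + m') (s + s') := by
  obtain ⟨w, h1, h2, h3⟩ := h
  obtain ⟨w', h1', h2', h3'⟩ := h'
  refine ⟨fun x y z => w x y z + w' x y z, h1.add h1', ?_, ?_⟩
  · intro x y hxy
    rw [sum_add_distrib]
    have a := h2 x y hxy
    have b := h2' x y hxy
    omega
  · simp only [sum_add_distrib]
    omega

theorem Ev.zero (v m : ℕ) : Ev v m 0 :=
  ⟨fun _ _ _ => 0, ⟨fun _ _ _ => rfl, fun _ _ _ => rfl, fun _ _ => rfl⟩, by simp, by simp⟩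

theorem Piece.ev {v s : ℕ} (h : Piece v s) : Ev v 1 s := by
  obtain ⟨w, h1, h2, h3⟩ := h
  refine ⟨w, h1, fun x y hxy => ?_, h3⟩
  rcases h2 x y hxy with h | h <;> rw [h] <;> norm_num

/-- extension of a function of three places by zero -/
def ext3 {α : Type} (w : α → α → α → ℕ) : Option α → Option α → Option α → ℕ
  | some x, some y, some z => w x y z
  | _, _, _ => 0

theorem ext3_tri {α : Type} {w : α → α → α → ℕ} (h : IsTri w) : IsTri (ext3 w) := by
  refine ⟨?_, ?_, ?_⟩
  · rintro (_ | x) (_ | y) (_ | z) <;> simp [ext3]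
    exact h.1 _ _ _
  · rintro (_ | x) (_ | y) (_ | z) <;> simp [ext3]
    exact h.2.1 _ _ _
  · rintro (_ | x) (_ | y) <;> simp [ext3]
    exact h.2.2 _ _

theorem Piece.succ {v s : ℕ} (h : Piece v s) : Piece (v + 1) s := by
  obtain ⟨w, h1, h2, h3⟩ := h
  have key : ∀ x y : Option (Fin v), ∑ z : Fin (v + 1), ext3 w x y (finSuccEquivLast z) =
      ∑ o, ext3 w x y o := fun x y => Equiv.sum_comp finSuccEquivLast (ext3 w x y)
  refine ⟨fun x y z => ext3 w (finSuccEquivLast x) (finSuccEquivLast y) (finSuccEquivLast z),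
    (ext3_tri h1).comp _, ?_, ?_⟩
  · intro x y hxy
    have hne : finSuccEquivLast x ≠ finSuccEquivLast y := fun h => hxy (finSuccEquivLast.injective h)
    simp only [key]
    revert hne
    generalize finSuccEquivLast x = a
    generalize finSuccEquivLast y = b
    intro hne
    rw [Fintype.sum_option]
    rcases a with _ | a
    · left; simp [ext3]
    · rcases b with _ | b
      · left; simp [ext3]
      · simp only [ext3, zero_add]
        exact h2 a b fun h => hne (by rw [h])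
  · simp only [key]
    rw [Equiv.sum_comp finSuccEquivLast fun x => ∑ y : Fin (v + 1), ∑ o, ext3 w x (finSuccEquivLast y) o]
    have k2 : ∀ x : Option (Fin v), ∑ y : Fin (v + 1), ∑ o, ext3 w x (finSuccEquivLast y) o =
        ∑ y, ∑ o, ext3 w x y o := fun x =>
      Equiv.sum_comp finSuccEquivLast fun y => ∑ o, ext3 w x y o
    simp only [k2]
    rw [← h3]
    simp [Fintype.sum_option, ext3]

theorem piece_small (hP : S_P) {v s : ℕ} (hv : v / 3 = 2) (h : 6 * s ≤ v * (v - 1)) 
    (ih : 3 ≤ v - 1 → 6 * s ≤ (v - 1) * (v - 1 - 1) → Piece (v - 1) s) : Piece v s := by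
  obtain ⟨p1, p2, p3, p4, p5, p6⟩ := hP
  have h3 : v = 6 ∨ v = 7 ∨ v = 8 := by omega
  rcases h3 with rfl | rfl | rfl
  · have : s = 4 ∨ s = 5 ∨ s ≤ 3 := by omega
    rcases this with rfl | rfl | h'
    · exact p1
    · exact p2
    · exact (ih (by norm_num) (by omega)).succ
  · have : s = 6 ∨ s = 7 ∨ s ≤ 5 := by omega
    rcases this with rfl | rfl | h'
    · exact p3
    · exact p4
    · exact (ih (by norm_num) (by omega)).succ
  · have : s = 8 ∨ s = 9 ∨ s ≤ 7 := by omega
    rcases this with rfl | rfl | h'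
    · exact p5
    · exact p6
    · exact (ih (by norm_num) (by omega)).succ

theorem two_dvd_mul_pred (n : ℕ) : ∃ k, n * (n - 1) = 2 * k := by
  have := Nat.even_mul_pred_self n
  obtain ⟨k, hk⟩ := this
  exact ⟨k, by omega⟩

theorem piece_all (hQ : S_Q) (hB : S_B) (hP : S_P) : ∀ v s : ℕ, 3 ≤ v → 6 * s ≤ v * (v - 1) →
    Piece v s := by
  intro v
  induction v with
  | zero => intro s h; omega
  | succ u ih =>
    intro s hv hs
    by_cases hn : (u + 1) / 3 = 2
    · refine piece_small hP hn hs ?_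
      intro h1 h2
      exact ih s h1 h2
    obtain ⟨n, c, hc, hnc⟩ : ∃ n c, c ≤ 2 ∧ u + 1 = 3 * n + c :=
      ⟨(u + 1) / 3, (u + 1) % 3, by omega, by omega⟩
    have hn1 : 1 ≤ n := by omega
    have hn2 : n ≠ 2 := by omega
    obtain ⟨t, ht⟩ := two_dvd_mul_pred n
    obtain ⟨p, rfl⟩ : ∃ p, n = p + 1 := ⟨n - 1, by omega⟩
    simp only [Nat.add_sub_cancel] at ht hs
    rw [hnc]
    interval_cases c
    · have hu : u = 3 * p + 2 := by omega
      subst hu
      have e1 : (3 * p + 2 + 1) * (3 * p + 2) = 9 * ((p + 1) * p) + 6 * p + 6 := by ring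
      have e2 : (3 * p + 2) * (3 * p + 2 - 1) = 9 * ((p + 1) * p) + 2 := by
        rw [show 3 * p + 2 - 1 = 3 * p + 1 by omega]; ring
      rw [e1, ht] at hs
      by_cases hlow : 3 * t ≤ s
      · exact hB (p + 1) 0 (s - 3 * t) s (by norm_num) (by omega)
          (by rw [Nat.add_sub_cancel, ht]; omega) (hQ _ hn2)
      · have h0 : p ≠ 0 := by rintro rfl; omega
        have := (ih s (by omega) (by rw [e2, ht]; omega)).succ
        exact this
    · have hu : u = 3 * p + 3 := by omega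
      subst hu
      have e1 : (3 * p + 3 + 1) * (3 * p + 3) = 9 * ((p + 1) * p) + 12 * p + 12 := by ring
      have e2 : (3 * p + 3) * (3 * p + 3 - 1) = 9 * ((p + 1) * p) + 6 * p + 6 := by
        rw [show 3 * p + 3 - 1 = 3 * p + 2 by omega]; ring
      rw [e1, ht] at hs
      by_cases hlow : 3 * t + (p + 1) ≤ s
      · exact hB (p + 1) 1 (s - 3 * t - (p + 1)) s (by norm_num) (by omega)
          (by rw [Nat.add_sub_cancel, ht]; omega) (hQ _ hn2)
      · have := (ih s (by omega) (by rw [e2, ht]; omega)).succ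
        exact this
    · have hu : u = 3 * p + 4 := by omega
      subst hu
      have e1 : (3 * p + 4 + 1) * (3 * p + 4) = 9 * ((p + 1) * p) + 18 * p + 20 := by ring
      have e2 : (3 * p + 4) * (3 * p + 4 - 1) = 9 * ((p + 1) * p) + 12 * p + 12 := by
        rw [show 3 * p + 4 - 1 = 3 * p + 3 by omega]; ring
      rw [e1, ht] at hs
      by_cases hlow : 3 * t + 2 * (p + 1) ≤ s
      · exact hB (p + 1) 2 (s - 3 * t - 2 * (p + 1)) s (by norm_num) (by omega)
          (by rw [Nat.add_sub_cancel, ht]; omega) (hQ _ hn2)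
      · have := (ih s (by omega) (by rw [e2, ht]; omega)).succ
        exact this

/-! ### Totals, missing pairs, relabelling -/

theorem total {v : ℕ} {w : Fin v → Fin v → Fin v → ℕ} (h : IsTri w) :
    ∑ x, ∑ y, ∑ z, w x y z = ∑ p ∈ (univ : Finset (Fin v)).offDiag, ∑ z, w p.1 p.2 z := by
  rw [← Fintype.sum_prod_type' (f := fun x y => ∑ z, w x y z)]
  symm
  apply sum_subset (subset_univ _)
  rintro ⟨x, y⟩ - hxy
  rw [mem_offDiag] at hxy
  have : x = y := by
    by_contra hne
    exact hxy ⟨mem_univ _, mem_univ _, hne⟩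
  subst this
  exact sum_eq_zero fun z _ => h.2.2 x z

theorem card_off (v : ℕ) : (univ : Finset (Fin v)).offDiag.card = v * (v - 1) := by
  rw [offDiag_card, card_univ, Fintype.card_fin]
  rcases v with _ | v
  · rfl
  · rw [Nat.add_sub_cancel, Nat.mul_succ]
    omega

/-- A piece with `6 s < v (v - 1)` misses a pair; if `6 s + 2 = v (v - 1)`, only one. -/
theorem missing {v s : ℕ} {w : Fin v → Fin v → Fin v → ℕ} (h : IsTri w)
    (h2 : ∀ x y, x ≠ y → ∑ z, w x y z = 0 ∨ ∑ z, w x y z = 2)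
    (h3 : ∑ x, ∑ y, ∑ z, w x y z = 12 * s) (hs : 6 * s < v * (v - 1)) :
    ∃ a b, a ≠ b ∧ ∑ z, w a b z = 0 ∧ ∑ z, w b a z = 0 := by
  by_contra hcon
  push Not at hcon
  have key : ∀ p ∈ (univ : Finset (Fin v)).offDiag, ∑ z, w p.1 p.2 z = 2 := by
    rintro ⟨x, y⟩ hp
    rw [mem_offDiag] at hp
    rcases h2 x y hp.2.2 with h0 | h0
    · exfalso
      apply hcon x y hp.2.2 h0
      rw [← h0]
      exact sum_congr rfl fun z _ => h.1 y x z
    · exact h0
  rw [total h, sum_congr rfl key, sum_const, card_off, smul_eq_mul] at h3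
  omega

theorem relabel {v : ℕ} {a b a' b' : Fin v} (h : a ≠ b) (h' : a' ≠ b') :
    ∃ σ : Equiv.Perm (Fin v), σ a' = a ∧ σ b' = b := by
  have h0 : Equiv.swap a a' b' ≠ a := by
    intro h1
    apply h'
    have h2 : Equiv.swap a a' a' = a := Equiv.swap_apply_right a a'
    exact (Equiv.swap a a').injective (h2.trans h1.symm)
  refine ⟨(Equiv.swap a a').trans (Equiv.swap (Equiv.swap a a' b') b), ?_, ?_⟩
  · rw [Equiv.trans_apply, Equiv.swap_apply_right]
    exact Equiv.swap_apply_of_ne_of_ne h0.symm h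
  · rw [Equiv.trans_apply]
    exact Equiv.swap_apply_left _ _

/-- A piece with a prescribed missing pair. -/
theorem piece_avoid {v s : ℕ} (hp : Piece v s) (hs : 6 * s < v * (v - 1)) {a b : Fin v}
    (hab : a ≠ b) : ∃ w : Fin v → Fin v → Fin v → ℕ, IsTri w ∧
      (∀ x y, x ≠ y → ∑ z, w x y z = 0 ∨ ∑ z, w x y z = 2) ∧
      ∑ x, ∑ y, ∑ z, w x y z = 12 * s ∧ ∑ z, w a b z = 0 ∧ ∑ z, w b a z = 0 := by
  obtain ⟨w, h1, h2, h3⟩ := hp
  obtain ⟨a', b', hab', ha, hb⟩ := missing h1 h2 h3 hs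
  obtain ⟨σ, hσa, hσb⟩ := relabel hab' hab
  have key : ∀ x y, ∑ z, w (σ x) (σ y) (σ z) = ∑ z, w (σ x) (σ y) z := fun x y =>
    Equiv.sum_comp σ fun z => w (σ x) (σ y) z
  refine ⟨fun x y z => w (σ x) (σ y) (σ z), h1.comp _, ?_, ?_, ?_, ?_⟩
  · intro x y hxy
    rw [key]
    exact h2 _ _ fun h => hxy (σ.injective h)
  · simp only [key]
    rw [Equiv.sum_comp σ fun x => ∑ y, ∑ z, w x (σ y) z]
    have : ∀ x, ∑ y, ∑ z, w x (σ y) z = ∑ y, ∑ z, w x y z := fun x =>
      Equiv.sum_comp σ fun y => ∑ z, w x y z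
    simp only [this]
    exact h3
  · rw [key, hσa, hσb]; exact ha
  · rw [key, hσa, hσb]; exact hb

/-! ### The doubled triangle and the six-fold system -/

/-- two copies of the triple `S` -/
def tri2 {v : ℕ} (S : Finset (Fin v)) (x y z : Fin v) : ℕ :=
  if x ≠ y ∧ y ≠ z ∧ x ≠ z ∧ x ∈ S ∧ y ∈ S ∧ z ∈ S then 2 else 0

theorem tri2_tri {v : ℕ} (S : Finset (Fin v)) : IsTri (tri2 S) := by
  refine ⟨fun x y z => ?_, fun x y z => ?_, fun x y => ?_⟩
  · unfold tri2
    congr 1
    apply propext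
    constructor
    · rintro ⟨a, b, c, d, e, f⟩
      exact ⟨a.symm, c, b, e, d, f⟩
    · rintro ⟨a, b, c, d, e, f⟩
      exact ⟨a.symm, c, b, e, d, f⟩
  · unfold tri2
    congr 1
    apply propext
    constructor
    · rintro ⟨a, b, c, d, e, f⟩
      exact ⟨c, b.symm, a, d, f, e⟩
    · rintro ⟨a, b, c, d, e, f⟩
      exact ⟨c, b.symm, a, d, f, e⟩
  · unfold tri2
    rw [if_neg]
    rintro ⟨a, -⟩
    exact a rfl

theorem tri2_sum {v : ℕ} {S : Finset (Fin v)} (hS : S.card = 3) {x y : Fin v} (hxy : x ≠ y) :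
    ∑ z, tri2 S x y z = if x ∈ S ∧ y ∈ S then 2 else 0 := by
  unfold tri2
  split_ifs with h
  · have : ∀ z, (if x ≠ y ∧ y ≠ z ∧ x ≠ z ∧ x ∈ S ∧ y ∈ S ∧ z ∈ S then 2 else 0) =
        if z ∈ (S.erase x).erase y then 2 else 0 := by
      intro z
      congr 1
      apply propext
      rw [mem_erase, mem_erase]
      constructor
      · rintro ⟨a, b, c, d, e, f⟩
        exact ⟨b.symm, c.symm, f⟩
      · rintro ⟨a, b, c⟩
        exact ⟨hxy, a.symm, b.symm, h.1, h.2, c⟩
    rw [sum_congr rfl fun z _ => this z, sum_ite_mem, univ_inter, sum_const, card_erase_of_mem,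
      card_erase_of_mem h.1, hS]
    · rfl
    · exact mem_erase.2 ⟨hxy.symm, h.2⟩
  · apply sum_eq_zero
    intro z _
    rw [if_neg]
    rintro ⟨a, b, c, d, e, f⟩
    exact h ⟨d, e⟩

theorem tri2_total {v : ℕ} {S : Finset (Fin v)} (hS : S.card = 3) :
    ∑ x, ∑ y, ∑ z, tri2 S x y z = 12 := by
  rw [total (tri2_tri S)]
  have h1 : ∀ p ∈ (univ : Finset (Fin v)).offDiag, ∑ z, tri2 S p.1 p.2 z =
      if p ∈ S.offDiag then 2 else 0 := by
    rintro ⟨x, y⟩ hp
    rw [mem_offDiag] at hp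
    rw [tri2_sum hS hp.2.2]
    congr 1
    apply propext
    rw [mem_offDiag]
    exact ⟨fun h => ⟨h.1, h.2, hp.2.2⟩, fun h => ⟨h.1, h.2.1⟩⟩
  rw [sum_congr rfl h1, sum_ite_mem]
  have h2 : (univ : Finset (Fin v)).offDiag ∩ S.offDiag = S.offDiag := by
    apply inter_eq_right.2
    exact offDiag_mono (subset_univ S)
  rw [h2, sum_const, offDiag_card, hS]
  rfl

theorem six_fold {v N : ℕ} (hv : 3 ≤ v) (hN : 6 * N + 2 = v * (v - 1)) (hp : Piece v N) :
    Ev v 3 (3 * N + 1) := by
  set a : Fin v := ⟨0, by omega⟩ with ha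
  set b : Fin v := ⟨1, by omega⟩ with hb
  set c : Fin v := ⟨2, by omega⟩ with hc
  have hab : a ≠ b := by rw [ha, hb]; simp
  have hac : a ≠ c := by rw [ha, hc]; simp
  have hbc : b ≠ c := by rw [hb, hc]; simp
  have hS : ({a, b, c} : Finset (Fin v)).card = 3 := card_eq_three.2 ⟨a, b, c, hab, hac, hbc, rfl⟩
  obtain ⟨w1, k1, l1, t1, m1, n1⟩ := piece_avoid hp (by omega) hab
  obtain ⟨w2, k2, l2, t2, m2, n2⟩ := piece_avoid hp (by omega) hac
  obtain ⟨w3, k3, l3, t3, m3, n3⟩ := piece_avoid hp (by omega) hbc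
  refine ⟨fun x y z => (w1 x y z + w2 x y z) + (w3 x y z + tri2 {a, b, c} x y z),
    (k1.add k2).add (k3.add (tri2_tri _)), ?_, ?_⟩
  · intro x y hxy
    simp only [sum_add_distrib]
    rw [tri2_sum hS hxy]
    have g1 := l1 x y hxy
    have g2 := l2 x y hxy
    have g3 := l3 x y hxy
    split_ifs with h
    · simp only [mem_insert, mem_singleton] at h
      obtain ⟨rfl | rfl | rfl, h5 | h5 | h5⟩ := h
      · exact absurd h5.symm hxy
      · rw [h5] at g1 g2 g3 ⊢; omega
      · rw [h5] at g1 g2 g3 ⊢; omega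
      · rw [h5] at g1 g2 g3 ⊢; omega
      · exact absurd h5.symm hxy
      · rw [h5] at g1 g2 g3 ⊢; omega
      · rw [h5] at g1 g2 g3 ⊢; omega
      · rw [h5] at g1 g2 g3 ⊢; omega
      · exact absurd h5.symm hxy
    · omega
  · simp only [sum_add_distrib]
    rw [t1, t2, t3, tri2_total hS]
    omega

/-! ### All even systems -/

theorem ev_mul {v N : ℕ} (hp : ∀ s, s ≤ N → Piece v s) : ∀ m s : ℕ, s ≤ m * N → Ev v m s := by
  intro m
  induction m with
  | zero =>
    intro s hs
    have : s = 0 := by omega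
    subst this
    exact Ev.zero v 0
  | succ m ih =>
    intro s hs
    have e : (m + 1) * N = m * N + N := by ring
    by_cases h : s ≤ N
    · have := (Ev.zero v m).add (hp s h).ev
      rwa [zero_add] at this
    · have := (ih (s - N) (by omega)).add (hp N le_rfl).ev
      rwa [show s - N + N = s by omega] at this

theorem ev_all {v : ℕ} (hv : 3 ≤ v) (hp : ∀ s, 6 * s ≤ v * (v - 1) → Piece v s) :
    ∀ m s : ℕ, 6 * s ≤ m * (v * (v - 1)) → Ev v m s := by
  have hmod : v * (v - 1) % 6 = 0 ∨ v * (v - 1) % 6 = 2 := by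
    have h6 : v % 6 < 6 := Nat.mod_lt _ (by norm_num)
    have h7 : (v - 1) % 6 = (v % 6 + 5) % 6 := by omega
    rw [Nat.mul_mod, h7]
    generalize v % 6 = r at h6
    interval_cases r <;> decide
  obtain ⟨N, hN | hN⟩ : ∃ N, v * (v - 1) = 6 * N ∨ v * (v - 1) = 6 * N + 2 :=
    ⟨v * (v - 1) / 6, by omega⟩
  · intro m s hs
    apply ev_mul (N := N) (fun s hs => hp s (by omega))
    rw [hN] at hs
    have : m * (6 * N) = 6 * (m * N) := by ring
    omega
  · have hpN : ∀ s, s ≤ N → Piece v s := fun s hs => hp s (by omega)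
    intro m
    induction m using Nat.strong_induction_on with
    | _ m ih =>
      intro s hs
      rw [hN] at hs
      by_cases h : s ≤ m * N
      · exact ev_mul hpN m s h
      · by_cases hm : m < 3
        · exfalso
          interval_cases m <;> omega
        · obtain ⟨k, rfl⟩ : ∃ k, m = k + 3 := ⟨m - 3, by omega⟩
          have e1 : (k + 3) * (6 * N + 2) = k * (6 * N + 2) + 18 * N + 6 := by ring
          have e2 : (k + 3) * N = k * N + 3 * N := by ring
          have := (ih k (by omega) (s - (3 * N + 1)) (by rw [hN]; omega)).add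
            (six_fold hv hN.symm (hpN N le_rfl))
          rwa [show s - (3 * N + 1) + (3 * N + 1) = s by omega] at this

/-! ### Odd systems -/

/-- odd weights with pair sums at most `2 m + 1` and the total `T`. -/
def Od (v m T : ℕ) : Prop :=
  ∃ w : Fin v → Fin v → Fin v → ℕ, IsTri w ∧
    (∀ x y, x ≠ y → ∑ z, w x y z ≤ 2 * m + 1 ∧ (∑ z, w x y z) % 2 = 1) ∧
      ∑ x, ∑ y, ∑ z, w x y z = T

theorem Od.add {v m T m' s' : ℕ} (h : Od v m T) (h' : Ev v m' s') : Od v (m + m') (T + 12 * s') := by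
  obtain ⟨w, h1, h2, h3⟩ := h
  obtain ⟨w', h1', h2', h3'⟩ := h'
  refine ⟨fun x y z => w x y z + w' x y z, h1.add h1', ?_, ?_⟩
  · intro x y hxy
    rw [sum_add_distrib]
    have a := h2 x y hxy
    have b := h2' x y hxy
    omega
  · simp only [sum_add_distrib]
    omega

theorem od_one {v : ℕ} (h : v % 6 = 1 ∨ v % 6 = 3) : Od v 0 (v * (v - 1)) := by
  obtain ⟨t, h1, h2, h3, h4⟩ := VB.t_K v h
  have htri : IsTri fun x y z : Fin v => if t x y z = true then 1 else 0 :=
    ⟨fun x y z => by show (if t x y z = true then 1 else 0) = if t y x z = true then 1 else 0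
                     rw [h1],
      fun x y z => by show (if t x y z = true then 1 else 0) = if t x z y = true then 1 else 0
                      rw [h2],
      fun x y => by show (if t x x y = true then 1 else 0) = 0
                    rw [h3]; rfl⟩
  have hs : ∀ x y : Fin v, x ≠ y → ∑ z, (if t x y z = true then 1 else 0) = 1 := by
    intro x y hxy
    obtain ⟨e, he, h5⟩ := h4 x y hxy
    rw [← card_filter]
    omega
  refine ⟨_, htri, ?_, ?_⟩
  · intro x y hxy
    rw [hs x y hxy]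
    norm_num
  · rw [total htri, sum_congr rfl fun p hp => hs p.1 p.2 (mem_offDiag.1 hp).2.2, sum_const,
      card_off, smul_eq_mul, mul_one]

theorem od_five (hF : S_F) {v N s : ℕ} (h : v % 6 = 5) (hN : v * (v - 1) = 6 * N + 2)
    (hp : Piece v s) (hs : s ≤ N) : Od v 1 (v * (v - 1) + 4 + 12 * s) := by
  obtain ⟨w, a, b, hab, htri, hw⟩ := hF v h
  obtain ⟨w', k, l, t, m, n⟩ := piece_avoid hp (by omega) hab
  refine ⟨fun x y z => w x y z + w' x y z, htri.add k, ?_, ?_⟩
  · intro x y hxy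
    rw [sum_add_distrib, hw x y hxy]
    have g := l x y hxy
    split_ifs with h5
    · obtain ⟨rfl, rfl⟩ | ⟨rfl, rfl⟩ := h5
      · rw [m]; norm_num
      · rw [n]; norm_num
    · omega
  · simp only [sum_add_distrib]
    rw [t, total htri]
    congr 1
    have h1 : ∀ p ∈ (univ : Finset (Fin v)).offDiag, ∑ z, w p.1 p.2 z =
        1 + if p ∈ ({(a, b), (b, a)} : Finset (Fin v × Fin v)) then 2 else 0 := by
      rintro ⟨x, y⟩ hp
      rw [mem_offDiag] at hp
      rw [hw x y hp.2.2]
      simp only [mem_insert, mem_singleton, Prod.mk.injEq]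
      split_ifs <;> rfl
    rw [sum_congr rfl h1, sum_add_distrib, sum_const, card_off, smul_eq_mul, mul_one, sum_ite_mem,
      sum_const]
    have h2 : (univ : Finset (Fin v)).offDiag ∩ {(a, b), (b, a)} = {(a, b), (b, a)} := by
      apply inter_eq_right.2
      intro p hp
      simp only [mem_insert, mem_singleton] at hp
      rw [mem_offDiag]
      rcases hp with rfl | rfl
      · exact ⟨mem_univ _, mem_univ _, hab⟩
      · exact ⟨mem_univ _, mem_univ _, hab.symm⟩
    rw [h2, card_pair (fun h => hab (Prod.mk.inj h).1)]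
    rfl

/-! ### Necessity -/

theorem total_le {v l : ℕ} {w : Fin v → Fin v → Fin v → ℕ} (h : IsTri w)
    (h2 : ∀ x y, x ≠ y → ∑ z, w x y z ≤ l) : ∑ x, ∑ y, ∑ z, w x y z ≤ l * (v * (v - 1)) := by
  rw [total h, ← card_off v, mul_comm]
  exact sum_le_card_nsmul _ _ _ fun p hp => h2 _ _ (mem_offDiag.1 hp).2.2

theorem le_total {v : ℕ} {w : Fin v → Fin v → Fin v → ℕ} (h : IsTri w)
    (h2 : ∀ x y, x ≠ y → 1 ≤ ∑ z, w x y z) : v * (v - 1) ≤ ∑ x, ∑ y, ∑ z, w x y z := by
  rw [total h, ← card_off v, ← mul_one (univ : Finset (Fin v)).offDiag.card]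
  exact card_nsmul_le_sum _ _ _ fun p hp => h2 _ _ (mem_offDiag.1 hp).2.2

theorem odd_of {v : ℕ} (hv : 1 ≤ v) {w : Fin v → Fin v → Fin v → ℕ} (h : IsTri w)
    (h2 : ∀ x y, x ≠ y → (∑ z, w x y z) % 2 = 1) : Odd v := by
  set x : Fin v := ⟨0, by omega⟩
  have e1 : ∑ p : Fin v × Fin v, (w x p.1 p.2 : ZMod 2) = 0 := by
    refine Finset.sum_involution (fun p _ => (p.2, p.1)) (fun p _ => ?_)
      (fun p _ hp => ?_) (fun p _ => mem_univ _) (fun p _ => rfl)
    · rw [h.2.1 x p.2 p.1]
      exact CharTwo.add_self_eq_zero _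
    · intro hq
      have : p.1 = p.2 := congrArg Prod.snd hq
      apply hp
      rw [this, h.1, h.2.1, h.2.2]
      rfl
  rw [Fintype.sum_prod_type] at e1
  have e3 : ∀ y : Fin v, ∑ z, (w x y z : ZMod 2) = if y = x then 0 else 1 := by
    intro y
    split_ifs with hy
    · rw [hy]
      exact sum_eq_zero fun z _ => by rw [h.2.2]; rfl
    · rw [← Nat.cast_sum]
      have := h2 x y fun h => hy h.symm
      rw [← ZMod.natCast_mod, this]
      rfl
  rw [sum_congr rfl fun y _ => e3 y, sum_ite, sum_const_zero, zero_add, sum_const, nsmul_eq_mul,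
    mul_one] at e1
  have e4 : (univ.filter (fun y : Fin v => ¬ y = x)).card = v - 1 := by
    rw [Finset.filter_not, Finset.filter_eq', if_pos (mem_univ _), ← Finset.compl_eq_univ_sdiff,
      card_compl, card_singleton, Fintype.card_fin]
  rw [e4, ZMod.natCast_eq_zero_iff_even] at e1
  rw [Nat.even_iff] at e1
  rw [Nat.odd_iff]
  omega

/-! ### The result -/

theorem assembly (hD : S_D) (hQ : S_Q) (hB : S_B) (hP : S_P) (hF : S_F) : S_R := by
  intro v l b hv hl
  rw [hD v l b]
  have hpiece : ∀ s, 6 * s ≤ v * (v - 1) → Piece v s := fun s hs => piece_all hQ hB hP v s hv hs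
  have hev := ev_all hv hpiece
  obtain ⟨Q, hQ2⟩ := two_dvd_mul_pred v
  constructor
  · rintro ⟨w, h1, h2, h3⟩
    have a1 := total_le h1 fun x y hxy => (h2 x y hxy).1
    have e1 : 3 * l * (v * (v - 1)) = 3 * (l * (v * (v - 1))) := by ring
    rw [e1] at h3
    refine ⟨by omega, ?_⟩
    rcases Nat.even_or_odd l with hl2 | hl2
    · exact Or.inl ⟨hl2, by omega⟩
    · have a3 : ∀ x y, x ≠ y → (∑ z, w x y z) % 2 = 1 := fun x y hxy => by
        rw [(h2 x y hxy).2]
        exact Nat.odd_iff.1 hl2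
      have a4 := le_total h1 fun x y hxy => by have := a3 x y hxy; omega
      refine Or.inr ⟨hl2, odd_of (by omega) h1 a3, ?_⟩
      have e2 : (3 * l - 1) * (v * (v - 1)) = 3 * (l * (v * (v - 1))) - v * (v - 1) := by
        rw [Nat.sub_mul, one_mul, mul_assoc]
      rw [e2]
      omega
  · rintro ⟨h1, ⟨⟨m, hm⟩, h2⟩ | ⟨⟨m, hm⟩, hvo, h2⟩⟩
    · have hm' : l = 2 * m := by omega
      subst hm'
      have e1 : 2 * m * (v * (v - 1)) = 4 * (m * Q) := by rw [hQ2]; ring
      have e2 : m * (v * (v - 1)) = 2 * (m * Q) := by rw [hQ2]; ring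
      have e3 : 3 * (2 * m) * (v * (v - 1)) = 12 * (m * Q) := by rw [hQ2]; ring
      rw [e1] at h1 h2
      obtain ⟨w, k1, k2, k3⟩ := hev m (m * Q - b) (by rw [e2]; omega)
      refine ⟨w, k1, fun x y hxy => ?_, ?_⟩
      · have := k2 x y hxy
        omega
      · rw [k3, e3]; omega
    · subst hm
      have hod : ∀ T, Od v m T → T + 12 * b = 3 * (2 * m + 1) * (v * (v - 1)) →
          ∃ w : Fin v → Fin v → Fin v → ℕ, IsTri w ∧
            (∀ x y, x ≠ y → ∑ z, w x y z ≤ 2 * m + 1 ∧ (∑ z, w x y z) % 2 = (2 * m + 1) % 2) ∧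
            (∑ x, ∑ y, ∑ z, w x y z) + 12 * b = 3 * (2 * m + 1) * (v * (v - 1)) := by
        rintro T ⟨w, k1, k2, k3⟩ hT
        refine ⟨w, k1, fun x y hxy => ?_, by rw [k3]; exact hT⟩
        have := k2 x y hxy
        omega
      rw [show 3 * (2 * m + 1) - 1 = 6 * m + 2 by omega] at h2
      have hvo' := Nat.odd_iff.1 hvo
      have h6 : v % 6 = 1 ∨ v % 6 = 3 ∨ v % 6 = 5 := by omega
      by_cases h5 : v % 6 = 5
      · obtain ⟨N, hN⟩ : ∃ N, v * (v - 1) = 6 * N + 2 := by
          have : v * (v - 1) % 6 = 2 := by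
            rw [Nat.mul_mod, h5, show (v - 1) % 6 = 4 by omega]
          exact ⟨v * (v - 1) / 6, by omega⟩
        have e1 : (2 * m + 1) * (6 * N + 2) = 12 * (m * N) + 4 * m + 6 * N + 2 := by ring
        have e2 : (6 * m + 2) * (6 * N + 2) = 36 * (m * N) + 12 * m + 12 * N + 4 := by ring
        have e3 : 3 * (2 * m + 1) * (6 * N + 2) = 36 * (m * N) + 12 * m + 18 * N + 6 := by ring
        rw [hN, e1] at h1
        rw [hN, e2] at h2
        rcases m with _ | k
        · omega
        have e4 : (k + 1) * N = k * N + N := by ring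
        rw [e4] at h1 h2 e3
        by_cases hs : 3 * (k * N + N) + (k + 1) + N - b ≤ N
        · refine hod _ ((od_five hF h5 hN (hpiece _ (by rw [hN]; omega)) hs).add (Ev.zero v k) |> 
            fun h => by rwa [Nat.add_comm 1 k] at h) ?_
          rw [hN, e3]
          omega
        · have hk := hev k (3 * (k * N + N) + (k + 1) + N - b - N) (by
            rw [hN, show k * (6 * N + 2) = 6 * (k * N) + 2 * k by ring]
            omega)
          refine hod _ ((od_five hF h5 hN (hpiece N (by rw [hN]; omega)) le_rfl).add hk |> 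
            fun h => by rwa [Nat.add_comm 1 k] at h) ?_
          rw [hN, e3]
          omega
      · have h13 : v % 6 = 1 ∨ v % 6 = 3 := by omega
        obtain ⟨R, hR⟩ : ∃ R, v * (v - 1) = 6 * R := by
          have : v * (v - 1) % 6 = 0 := by
            rcases h13 with h | h
            · rw [Nat.mul_mod, h, show (v - 1) % 6 = 0 by omega]
            · rw [Nat.mul_mod, h, show (v - 1) % 6 = 2 by omega]
          exact ⟨v * (v - 1) / 6, by omega⟩
        have e1 : (2 * m + 1) * (6 * R) = 12 * (m * R) + 6 * R := by ring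
        have e2 : (6 * m + 2) * (6 * R) = 36 * (m * R) + 12 * R := by ring
        have e3 : 3 * (2 * m + 1) * (6 * R) = 36 * (m * R) + 18 * R := by ring
        rw [hR, e1] at h1
        rw [hR, e2] at h2
        have hk := hev m (3 * (m * R) + R - b) (by
          rw [hR, show m * (6 * R) = 6 * (m * R) by ring]
          omega)
        refine hod _ ((od_one h13).add hk |> fun h => by rwa [Nat.zero_add] at h) ?_
        rw [hR, e3]
        omega

/-- Two points. -/
theorem two (hD : S_D) : S_2 := by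
  intro l b
  rw [hD 2 l b]
  have hz : ∀ w : Fin 2 → Fin 2 → Fin 2 → ℕ, IsTri w → ∀ x y z, w x y z = 0 := by
    intro w h x y z
    have h5 : x = y ∨ y = z ∨ x = z := by omega
    rcases h5 with rfl | rfl | rfl
    · exact h.2.2 _ _
    · rw [h.1, h.2.1]; exact h.2.2 _ _
    · rw [h.2.1]; exact h.2.2 _ _
  constructor
  · rintro ⟨w, h1, h2, h3⟩
    simp only [hz w h1, sum_const_zero] at h3
    omega
  · rintro rfl
    refine ⟨fun _ _ _ => 0, ⟨fun _ _ _ => rfl, fun _ _ _ => rfl, fun _ _ => rfl⟩, ?_, ?_⟩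
    · intro x y _
      rw [sum_const_zero]
      omega
    · simp only [sum_const_zero]
      omega

end Pool.Agent.U645.VS
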