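import Mathlib

/-!
Project VS (`MP_e0c419_co`): variance-balanced designs with block size three, all `(v, λ, b)`.
Statements of the packages.
-/

set_option autoImplicit false

open Finset

namespace Pool.Agent.U645.VS

/-- A block with three places: a multiset of three points which are not all equal. -/
def IsBlock {v : ℕ} (B : Multiset (Fin v)) : Prop :=
  Multiset.card B = 3 ∧ ∃ a ∈ B, ∃ b ∈ B, a ≠ b

/-- `D` is the multiset of the blocks of a `VB(v,3,l)` design: every two distinct points have the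
concurrence `l`. -/
def IsVB (v l : ℕ) (D : Multiset (Multiset (Fin v))) : Prop :=
  (∀ B ∈ D, IsBlock B) ∧
    ∀ i j : Fin v, i ≠ j → (D.map fun B => B.count i * B.count j).sum = l

/-- `w` is the function of the multiplicities of a multiset of 3-subsets of `α`. -/
def IsTri {α : Type} (w : α → α → α → ℕ) : Prop :=
  (∀ x y z, w x y z = w y x z) ∧ (∀ x y z, w x y z = w x z y) ∧ ∀ x y, w x x y = 0

/-- A multiset of `2 s` triples of `v` points, such that every pair is in `0` or `2` of them. -/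
def Piece (v s : ℕ) : Prop :=
  ∃ w : Fin v → Fin v → Fin v → ℕ, IsTri w ∧
    (∀ x y, x ≠ y → ∑ z, w x y z = 0 ∨ ∑ z, w x y z = 2) ∧ ∑ x, ∑ y, ∑ z, w x y z = 12 * s

/-- An idempotent quasigroup of order `n`. -/
def IsIQ (n : ℕ) (m : Fin n → Fin n → Fin n) : Prop :=
  (∀ x, m x x = x) ∧ (∀ x, Function.Injective (m x)) ∧ ∀ y, Function.Injective fun x => m x y

/-- Package D: from designs to triples. -/
def S_D : Prop := ∀ v l b : ℕ,
  (∃ D : Multiset (Multiset (Fin v)), IsVB v l D ∧ Multiset.card D = b) ↔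
    ∃ w : Fin v → Fin v → Fin v → ℕ, IsTri w ∧
      (∀ x y, x ≠ y → ∑ z, w x y z ≤ l ∧ (∑ z, w x y z) % 2 = l % 2) ∧
      (∑ x, ∑ y, ∑ z, w x y z) + 12 * b = 3 * l * (v * (v - 1))

/-- Package Q: idempotent quasigroups of every order `n ≠ 2`. -/
def S_Q : Prop := ∀ n : ℕ, n ≠ 2 → ∃ m : Fin n → Fin n → Fin n, IsIQ n m

/-- Package B: the construction of Bose. -/
def S_B : Prop := ∀ n c k s : ℕ, c ≤ 2 → k ≤ n → 2 * s = 3 * (n * (n - 1)) + 2 * (c * n) + 2 * k →
  (∃ m : Fin n → Fin n → Fin n, IsIQ n m) → Piece (3 * n + c) s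

/-- Package P: six small pieces. -/
def S_P : Prop := Piece 6 4 ∧ Piece 6 5 ∧ Piece 7 6 ∧ Piece 7 7 ∧ Piece 8 8 ∧ Piece 8 9

/-- Package F: `v ≡ 5 (mod 6)`; one pair is in three triples, all the others in one. -/
def S_F : Prop := ∀ v : ℕ, v % 6 = 5 → ∃ (w : Fin v → Fin v → Fin v → ℕ) (a b : Fin v), a ≠ b ∧
  IsTri w ∧ ∀ x y, x ≠ y →
    ∑ z, w x y z = if (x = a ∧ y = b) ∨ (x = b ∧ y = a) then 3 else 1

/-- The result: for `v ≥ 3` and `l ≥ 1` there is a `VB(v,3,l)` design with `b` blocks if and only if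
`l v (v - 1) ≤ 6 b` and either `l` is even and `4 b ≤ l v (v - 1)`, or `l` and `v` are odd and
`12 b ≤ (3 l - 1) v (v - 1)`. -/
def S_R : Prop := ∀ v l b : ℕ, 3 ≤ v → 1 ≤ l →
  ((∃ D : Multiset (Multiset (Fin v)), IsVB v l D ∧ Multiset.card D = b) ↔
    l * (v * (v - 1)) ≤ 6 * b ∧
      ((Even l ∧ 4 * b ≤ l * (v * (v - 1))) ∨
        (Odd l ∧ Odd v ∧ 12 * b ≤ (3 * l - 1) * (v * (v - 1)))))

/-- Two points. -/
def S_2 : Prop := ∀ l b : ℕ,
  (∃ D : Multiset (Multiset (Fin 2)), IsVB 2 l D ∧ Multiset.card D = b) ↔ l = 2 * b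

end Pool.Agent.U645.VS
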